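import Pool.Agent.Lib.MP_877d49_an.Stm

/-!
# MP_877d49_an: piece U2
-/

set_option autoImplicit false

namespace HaarG

namespace U2P

theorem mul_rpow_sub {c p : ℝ} (hc : 0 ≤ c) (hp : 1 < p) : c * c ^ (p - 1) = c ^ p := by
  rcases hc.eq_or_lt with h | h
  · rw [← h, Real.zero_rpow (by linarith), Real.zero_rpow (by linarith), mul_zero]
  · rw [Real.rpow_sub_one h.ne']
    field_simp

theorem b_ge {p b : ℝ} (h : PB p b) : 2 ≤ b := by
  obtain ⟨hp, h | h⟩ := h
  · rw [h.2]; exact h.1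
  · rw [h.2, le_div_iff₀ (by linarith)]
    linarith [h.1]

end U2P

theorem p_U2 : S_U2 := by
  intro p b hPB
  have hb := U2P.b_ge hPB
  have hp : 1 < p := hPB.1
  obtain ⟨β, hβ⟩ : ∃ β, β = b - 1 := ⟨_, rfl⟩
  have hβ1 : 1 ≤ β := by linarith
  refine ⟨⟨(2 * β) ^ p + 2 * β * (1 + 2 * β) ^ (p - 1), by positivity, ?_⟩, ?_⟩
  · intro x y
    unfold UU
    rw [← hβ]
    obtain ⟨a, ha⟩ : ∃ a, a = |x| := ⟨_, rfl⟩
    obtain ⟨c, hc⟩ : ∃ c, c = |y| := ⟨_, rfl⟩
    have ha0 : 0 ≤ a := by rw [ha]; exact abs_nonneg _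
    have hc0 : 0 ≤ c := by rw [hc]; exact abs_nonneg _
    rw [← ha, ← hc]
    have hp1 : 0 ≤ p - 1 := by linarith
    rcases le_or_gt (2 * β * a) c with h | h
    · have h1 : c ^ (p - 1) ≤ (a + c) ^ (p - 1) :=
        Real.rpow_le_rpow hc0 (by linarith) hp1
      have h2 : c ≤ 2 * (c - β * a) := by linarith
      have h3 : c * c ^ (p - 1) ≤ 2 * (c - β * a) * (a + c) ^ (p - 1) :=
        mul_le_mul h2 h1 (by positivity) (by linarith)
      rw [U2P.mul_rpow_sub hc0 hp] at h3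
      have h4 : 0 ≤ ((2 * β) ^ p + 2 * β * (1 + 2 * β) ^ (p - 1)) * a ^ p := by positivity
      linarith
    · have h1 : c ^ p ≤ (2 * β) ^ p * a ^ p := by
        rw [← Real.mul_rpow (by linarith) ha0]
        exact Real.rpow_le_rpow hc0 h.le (by linarith)
      have h2 : (a + c) ^ (p - 1) ≤ (1 + 2 * β) ^ (p - 1) * a ^ (p - 1) := by
        rw [← Real.mul_rpow (by linarith) ha0]
        exact Real.rpow_le_rpow (by linarith) (by linarith) hp1
      have h3 : 0 ≤ (a + c) ^ (p - 1) := by positivity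
      have h4 := U2P.mul_rpow_sub ha0 hp
      have h5 : -(β * a) * (a + c) ^ (p - 1) ≤ (c - β * a) * (a + c) ^ (p - 1) :=
        mul_le_mul_of_nonneg_right (by linarith) h3
      have h6 : β * a * (a + c) ^ (p - 1) ≤ β * a * ((1 + 2 * β) ^ (p - 1) * a ^ (p - 1)) :=
        mul_le_mul_of_nonneg_left h2 (by positivity)
      have h7 : β * a * ((1 + 2 * β) ^ (p - 1) * a ^ (p - 1)) =
          β * (1 + 2 * β) ^ (p - 1) * a ^ p := by
        rw [← h4]
        ring
      rw [h7] at h6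
      linarith
  · intro x y hxy
    unfold UU
    rw [← hβ, hxy]
    have h1 : 0 ≤ |x| := abs_nonneg x
    have h2 : 0 ≤ (|x| + |x|) ^ (p - 1) := by positivity
    apply mul_nonpos_of_nonpos_of_nonneg _ h2
    nlinarith

end HaarG
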