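import Pool.Agent.Lib.MP_877d49_an.Stm

/-!
Unconditionality of the Haar system for changes of signs.
-/

set_option autoImplicit false

open MeasureTheory Set Filter Topology

namespace HaarG

namespace U4P

lemma left_mem (n k : ℕ) : (k : ℝ) / 2 ^ n ∈ D n k := by
  unfold D
  refine ⟨le_rfl, ?_⟩
  have h : (0 : ℝ) < 2 ^ n := by positivity
  exact div_lt_div_of_pos_right (by linarith) h

lemma SS_const (hC : S_Cst) (n : ℕ) (c : ℕ → ℝ) (k : ℕ) (x : ℝ) (hx : x ∈ D n k) :
    SS n c x = SS n c ((k : ℝ) / 2 ^ n) := by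
  unfold SS
  refine Finset.sum_congr rfl fun i hi => ?_
  have h : i < 2 ^ n := (Finset.mem_range.1 hi).trans Nat.lt_two_pow_self
  rw [hC n i h k x hx _ (left_mem n k)]

lemma integ (hC : S_Cst) (hI : S_IntD) (n : ℕ) (c d : ℕ → ℝ) (G : ℝ → ℝ → ℝ) :
    Integrable (fun x => G (SS n c x) (SS n d x)) mu := by
  refine (hI n _ fun k _ x hx => ?_).1
  rw [SS_const hC n c k x hx, SS_const hC n d k x hx]

lemma UU_neg (b p x y : ℝ) : UU b p x (-y) = UU b p x y := by
  unfold UU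
  rw [abs_neg]

lemma exists_b (p : ℝ) (hp : 1 < p) : ∃ b, PB p b := by
  rcases le_total 2 p with h | h
  · exact ⟨p, hp, Or.inl ⟨h, rfl⟩⟩
  · exact ⟨p / (p - 1), hp, Or.inr ⟨h, rfl⟩⟩

end U4P

open U4P in
theorem p_U4 (h1 : S_U1) (h2 : S_U2) (h3 : S_U3) (hC : S_Cst) (hI : S_IntD) : S_U4 := by
  intro p hp
  obtain ⟨b, hb⟩ := exists_b p hp
  obtain ⟨⟨K, hK, hmaj⟩, h0⟩ := h2 p b hb
  refine ⟨K, hK, fun n c ε hε => ?_⟩
  have hU : ∫ x, UU b p (SS n c x) (SS n (fun i => ε i * c i) x) ∂mu ≤ 0 := by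
    refine h3 (UU b p) ?_ h0 n c ε hε
    rintro x y c ε (rfl | rfl)
    · simpa using h1 p b hb x y c
    · have h := h1 p b hb x (-y) c
      rw [UU_neg] at h
      have e1 : -y + c = -(y + -1 * c) := by ring
      have e2 : -y - c = -(y - -1 * c) := by ring
      rw [e1, e2, UU_neg, UU_neg] at h
      exact h
  have hd : ∫ x, (|SS n (fun i => ε i * c i) x| ^ p - K * |SS n c x| ^ p) ∂mu ≤ 0 := by
    calc ∫ x, (|SS n (fun i => ε i * c i) x| ^ p - K * |SS n c x| ^ p) ∂mu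
        ≤ ∫ x, 2 * UU b p (SS n c x) (SS n (fun i => ε i * c i) x) ∂mu :=
          integral_mono (integ hC hI n c (fun i => ε i * c i) fun u v => |v| ^ p - K * |u| ^ p)
            (integ hC hI n c (fun i => ε i * c i) fun u v => 2 * UU b p u v)
            fun x => hmaj _ _
      _ = 2 * ∫ x, UU b p (SS n c x) (SS n (fun i => ε i * c i) x) ∂mu :=
          integral_const_mul _ _
      _ ≤ 0 := by linarith
  rw [integral_sub (integ hC hI n c (fun i => ε i * c i) fun _ v => |v| ^ p)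
    (integ hC hI n c (fun i => ε i * c i) fun u _ => K * |u| ^ p), integral_const_mul] at hd
  linarith

end HaarG
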