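import Pool.Agent.Lib.MP_877d49_an.Stm

/-!
# MP_877d49_an, piece U6: domination of coefficients with values in `𝕜`
-/

set_option autoImplicit false

open MeasureTheory Set Filter Topology

namespace HaarG

namespace U6P

theorem mem_D (n k : ℕ) : (k : ℝ) / 2 ^ n ∈ D n k := by
  refine ⟨le_rfl, ?_⟩
  have : (0 : ℝ) < 2 ^ n := by positivity
  gcongr
  linarith

theorem st_eq (hC : S_Cst) (n i : ℕ) (hi : i < n) (k : ℕ) (x : ℝ) (hx : x ∈ D n k) :
    st i x = st i ((k : ℝ) / 2 ^ n) :=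
  hC n i (hi.trans Nat.lt_two_pow_self) k x hx _ (mem_D n k)

theorem SS_eq (hC : S_Cst) (n : ℕ) (c : ℕ → ℝ) (k : ℕ) (x : ℝ) (hx : x ∈ D n k) :
    SS n c x = SS n c ((k : ℝ) / 2 ^ n) := by
  unfold SS
  refine Finset.sum_congr rfl fun i hi => ?_
  rw [st_eq hC n i (Finset.mem_range.1 hi) k x hx]

theorem SK_eq {𝕜 : Type} [RCLike 𝕜] (hC : S_Cst) (n : ℕ) (c : ℕ → 𝕜) (k : ℕ) (x : ℝ)
    (hx : x ∈ D n k) : SK n c x = SK n c ((k : ℝ) / 2 ^ n) := by
  unfold SK
  refine Finset.sum_congr rfl fun i hi => ?_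
  rw [st_eq hC n i (Finset.mem_range.1 hi) k x hx]

theorem int_SS (hC : S_Cst) (hI : S_IntD) (p : ℝ) (n : ℕ) (c : ℕ → ℝ) :
    Integrable (fun x => |SS n c x| ^ p) mu :=
  (hI ℝ inferInstance inferInstance n (fun x => |SS n c x| ^ p) fun k _ x hx => by
    show |SS n c x| ^ p = |SS n c ((k : ℝ) / 2 ^ n)| ^ p
    rw [SS_eq hC n c k x hx]).1

theorem int_SK {𝕜 : Type} [RCLike 𝕜] (hC : S_Cst) (hI : S_IntD) (p : ℝ) (n : ℕ) (c : ℕ → 𝕜) :
    Integrable (fun x => ‖SK n c x‖ ^ p) mu :=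
  (hI ℝ inferInstance inferInstance n (fun x => ‖SK n c x‖ ^ p) fun k _ x hx => by
    show ‖SK n c x‖ ^ p = ‖SK n c ((k : ℝ) / 2 ^ n)‖ ^ p
    rw [SK_eq hC n c k x hx]).1

theorem re_SK {𝕜 : Type} [RCLike 𝕜] (n : ℕ) (c : ℕ → 𝕜) (x : ℝ) :
    RCLike.re (SK n c x) = SS n (fun i => RCLike.re (c i)) x := by
  unfold SK SS
  rw [map_sum]
  refine Finset.sum_congr rfl fun i _ => ?_
  rw [RCLike.smul_re]
  ring

theorem im_SK {𝕜 : Type} [RCLike 𝕜] (n : ℕ) (c : ℕ → 𝕜) (x : ℝ) :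
    RCLike.im (SK n c x) = SS n (fun i => RCLike.im (c i)) x := by
  unfold SK SS
  rw [map_sum]
  refine Finset.sum_congr rfl fun i _ => ?_
  rw [RCLike.smul_im]
  ring

theorem norm_le' {𝕜 : Type} [RCLike 𝕜] (z : 𝕜) : ‖z‖ ≤ |RCLike.re z| + |RCLike.im z| := by
  have h1 : z = (RCLike.re z : 𝕜) + (RCLike.im z : 𝕜) * RCLike.I := (RCLike.re_add_im z).symm
  calc ‖z‖ = ‖(RCLike.re z : 𝕜) + (RCLike.im z : 𝕜) * RCLike.I‖ := by rw [← h1]
    _ ≤ ‖(RCLike.re z : 𝕜)‖ + ‖(RCLike.im z : 𝕜) * RCLike.I‖ := norm_add_le _ _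
    _ ≤ |RCLike.re z| + |RCLike.im z| * 1 := by
        rw [norm_mul, RCLike.norm_ofReal, RCLike.norm_ofReal]
        gcongr
        rw [RCLike.norm_I]
        split_ifs
        · exact zero_le_one
        · exact le_rfl
    _ = _ := by rw [mul_one]

theorem pow4 (p : ℝ) (hp : 1 < p) (a b c d : ℝ) (ha : 0 ≤ a) (hb : 0 ≤ b) (hc : 0 ≤ c)
    (hd : 0 ≤ d) : (a + b + (c + d)) ^ p ≤ 4 ^ p * (a ^ p + b ^ p + (c ^ p + d ^ p)) := by
  have hp0 : 0 ≤ p := by linarith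
  obtain ⟨m, hm, h1, h2, h3, h4, h5⟩ : ∃ m : ℝ, 0 ≤ m ∧ a ≤ m ∧ b ≤ m ∧ c ≤ m ∧ d ≤ m ∧
      m ^ p ≤ a ^ p + b ^ p + (c ^ p + d ^ p) := by
    have qa := Real.rpow_nonneg ha p
    have qb := Real.rpow_nonneg hb p
    have qc := Real.rpow_nonneg hc p
    have qd := Real.rpow_nonneg hd p
    rcases le_total a b with h1 | h1 <;> rcases le_total c d with h2 | h2
    · rcases le_total b d with h3 | h3
      · exact ⟨d, hd, h1.trans h3, h3, h2, le_rfl, by linarith⟩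
      · exact ⟨b, hb, h1, le_rfl, h2.trans h3, h3, by linarith⟩
    · rcases le_total b c with h3 | h3
      · exact ⟨c, hc, h1.trans h3, h3, le_rfl, h2, by linarith⟩
      · exact ⟨b, hb, h1, le_rfl, h3, h2.trans h3, by linarith⟩
    · rcases le_total a d with h3 | h3
      · exact ⟨d, hd, h3, h1.trans h3, h2, le_rfl, by linarith⟩
      · exact ⟨a, ha, le_rfl, h1, h2.trans h3, h3, by linarith⟩
    · rcases le_total a c with h3 | h3
      · exact ⟨c, hc, h3, h1.trans h3, le_rfl, h2, by linarith⟩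
      · exact ⟨a, ha, le_rfl, h1, h3, h2.trans h3, by linarith⟩
  calc (a + b + (c + d)) ^ p ≤ (4 * m) ^ p := by
        apply Real.rpow_le_rpow (by positivity) (by linarith) hp0
    _ = 4 ^ p * m ^ p := Real.mul_rpow (by norm_num) hm
    _ ≤ _ := by gcongr

end U6P

open U6P in
theorem p_U6 (h : S_U5) (hC : S_Cst) (hI : S_IntD) : S_U6 := by
  intro 𝕜 _ p hp
  obtain ⟨K, hK, hU⟩ := h p hp
  have hp0 : 0 ≤ p := by linarith
  refine ⟨4 ^ p * (4 * K), by positivity, ?_⟩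
  intro n c θ hθ
  -- the multipliers
  obtain ⟨w, hw1, hw2⟩ : ∃ w : ℕ → 𝕜, (∀ i, ‖w i‖ ≤ 1) ∧ ∀ i < n, θ i = w i * c i := by
    classical
    refine ⟨fun i => if i < n ∧ c i ≠ 0 then θ i / c i else 0, fun i => ?_, fun i hi => ?_⟩
    · dsimp only
      split_ifs with hc
      · rw [norm_div]
        exact div_le_one_of_le₀ (hθ i hc.1) (norm_nonneg _)
      · rw [norm_zero]
        exact zero_le_one
    · dsimp only
      by_cases hc : c i = 0
      · have h1 := hθ i hi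
        rw [hc, norm_zero, norm_le_zero_iff] at h1
        rw [h1, hc, mul_zero]
      · rw [if_pos ⟨hi, hc⟩, div_mul_cancel₀ _ hc]
  set cr : ℕ → ℝ := fun i => RCLike.re (c i) with hcr
  set ci : ℕ → ℝ := fun i => RCLike.im (c i) with hci
  set wr : ℕ → ℝ := fun i => RCLike.re (w i) with hwr
  set wi : ℕ → ℝ := fun i => RCLike.im (w i) with hwi
  have hwr1 : ∀ i, |wr i| ≤ 1 := fun i => (RCLike.abs_re_le_norm (w i)).trans (hw1 i)
  have hwi1 : ∀ i, |wi i| ≤ 1 := fun i => (RCLike.abs_im_le_norm (w i)).trans (hw1 i)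
  have hre : ∀ x, RCLike.re (SK n θ x) =
      SS n (fun i => wr i * cr i) x - SS n (fun i => wi i * ci i) x := by
    intro x
    rw [re_SK]
    unfold SS
    rw [← Finset.sum_sub_distrib]
    refine Finset.sum_congr rfl fun i hi => ?_
    dsimp only
    rw [hw2 i (Finset.mem_range.1 hi), RCLike.mul_re]
    ring
  have him : ∀ x, RCLike.im (SK n θ x) =
      SS n (fun i => wr i * ci i) x + SS n (fun i => wi i * cr i) x := by
    intro x
    rw [im_SK]
    unfold SS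
    rw [← Finset.sum_add_distrib]
    refine Finset.sum_congr rfl fun i hi => ?_
    dsimp only
    rw [hw2 i (Finset.mem_range.1 hi), RCLike.mul_im]
    ring
  have hpt : ∀ x, ‖SK n θ x‖ ^ p ≤ 4 ^ p * (|SS n (fun i => wr i * cr i) x| ^ p +
      |SS n (fun i => wi i * ci i) x| ^ p + (|SS n (fun i => wr i * ci i) x| ^ p +
      |SS n (fun i => wi i * cr i) x| ^ p)) := by
    intro x
    refine le_trans (Real.rpow_le_rpow (norm_nonneg _) ?_ hp0)
      (pow4 p hp _ _ _ _ (abs_nonneg _) (abs_nonneg _) (abs_nonneg _) (abs_nonneg _))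
    refine (norm_le' _).trans ?_
    rw [hre, him]
    exact add_le_add (abs_sub _ _) (abs_add_le _ _)
  have i1 := int_SS hC hI p n (fun i => wr i * cr i)
  have i2 := int_SS hC hI p n (fun i => wi i * ci i)
  have i3 := int_SS hC hI p n (fun i => wr i * ci i)
  have i4 := int_SS hC hI p n (fun i => wi i * cr i)
  have hr : ∫ x, |SS n cr x| ^ p ∂mu ≤ ∫ x, ‖SK n c x‖ ^ p ∂mu := by
    refine integral_mono (int_SS hC hI p n cr) (int_SK hC hI p n c) fun x => ?_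
    dsimp only
    rw [hcr, ← re_SK]
    exact Real.rpow_le_rpow (abs_nonneg _) (RCLike.abs_re_le_norm _) hp0
  have hi : ∫ x, |SS n ci x| ^ p ∂mu ≤ ∫ x, ‖SK n c x‖ ^ p ∂mu := by
    refine integral_mono (int_SS hC hI p n ci) (int_SK hC hI p n c) fun x => ?_
    dsimp only
    rw [hci, ← im_SK]
    exact Real.rpow_le_rpow (abs_nonneg _) (RCLike.abs_im_le_norm _) hp0
  have u1 := hU n cr wr hwr1
  have u2 := hU n ci wi hwi1
  have u3 := hU n ci wr hwr1
  have u4 := hU n cr wi hwi1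
  have hKr := mul_le_mul_of_nonneg_left hr hK.le
  have hKi := mul_le_mul_of_nonneg_left hi hK.le
  have h4p : (0 : ℝ) < 4 ^ p := by positivity
  calc ∫ x, ‖SK n θ x‖ ^ p ∂mu ≤ ∫ x, 4 ^ p * (|SS n (fun i => wr i * cr i) x| ^ p +
      |SS n (fun i => wi i * ci i) x| ^ p + (|SS n (fun i => wr i * ci i) x| ^ p +
      |SS n (fun i => wi i * cr i) x| ^ p)) ∂mu :=
        integral_mono (int_SK hC hI p n θ) (((i1.add i2).add (i3.add i4)).const_mul _) hpt
    _ = 4 ^ p * ((∫ x, |SS n (fun i => wr i * cr i) x| ^ p ∂mu) +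
      (∫ x, |SS n (fun i => wi i * ci i) x| ^ p ∂mu) +
      ((∫ x, |SS n (fun i => wr i * ci i) x| ^ p ∂mu) +
      (∫ x, |SS n (fun i => wi i * cr i) x| ^ p ∂mu))) := by
        rw [integral_const_mul]
        congr 1
        rw [← integral_add i1 i2, ← integral_add i3 i4]
        exact integral_add (i1.add i2) (i3.add i4)
    _ ≤ 4 ^ p * (4 * (K * ∫ x, ‖SK n c x‖ ^ p ∂mu)) := by
        gcongr
        linarith
    _ = _ := by ring

end HaarG
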